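import Pool.Agent.Q91.PT.Stm2

/-!
# Project PT (helper91), job FN4: lower bounds for the area of loops
-/

set_option autoImplicit false

namespace Pool.Agent.Q153.PT.FN4

open Finset Pool.Agent.H976R2 Pool.Agent.H976R2.Lip Pool.Agent.H739K Pool.Agent.H924P Pool.Agent.Q91.PT
open scoped Classical

theorem t (hcnv : S_cnv) (hfew : S_few) (hmea : S_mea) : S_fn4 := by
  obtain ⟨δ₀, C₀, hδ, hC, hm⟩ := hmea
  obtain ⟨_, _, _, _, _, _, hf⟩ := hfew
  -- the number of the words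
  have hM : ∀ n : ℕ, 2 ≤ n → (0 : ℝ) < ((KP (2 * n - 1)).card : ℝ) := by
    intro n hn
    have := (hf (2 * n - 1) (by omega) (by omega)).1
    exact_mod_cast this
  have hn1 : ∀ n : ℕ, 2 ≤ n → ((((2 * n - 1 : ℕ) : ℝ) + 1) / 2) = n := by
    intro n hn
    rw [Nat.cast_sub (by omega)]
    push_cast
    ring
  have hn2 : ∀ n : ℕ, 2 ≤ n → ((2 * n - 1 : ℕ) : ℝ) = 2 * n - 1 := by
    intro n hn
    rw [Nat.cast_sub (by omega)]
    push_cast
    ring
  have hLC : ∀ (n : ℕ) (T : Set ℤ), 2 ≤ n → (LC n Set.univ T : ℝ) =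
      (((KP (2 * n - 1)).filter (fun w => (ar w : ℤ) ∈ T)).card : ℝ) := by
    intro n T hn
    rw [(hcnv n hn).1 Set.univ T]
    congr 2
    ext w
    simp
  have hLU : ∀ n : ℕ, 2 ≤ n → (LC n Set.univ Set.univ : ℝ) = ((KP (2 * n - 1)).card : ℝ) := by
    intro n hn
    rw [hLC n Set.univ hn]
    simp
  -- the exponential
  have hexp : ∀ n : ℕ, 2 ≤ n → Real.exp (-δ₀ * ((2 * n - 1 : ℕ) : ℝ)) ≤ Real.exp (-(δ₀ / 2) * n) := by
    intro n hn
    rw [Real.exp_le_exp, hn2 n hn]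
    have : (2 : ℝ) ≤ n := by exact_mod_cast hn
    nlinarith
  have hcard : ∀ n : ℕ, 2 ≤ n → (((KP (2 * n - 1)).filter (fun w => (ar w : ℝ) ≤ (1 + δ₀) * n)).card : ℝ) ≤
      C₀ * Real.exp (-(δ₀ / 2) * n) * (KP (2 * n - 1)).card := by
    intro n hn
    have h1 := (hm (2 * n - 1) (by omega) (by omega)).1
    rw [hn1 n hn] at h1
    refine h1.trans ?_
    have := hexp n hn
    gcongr
  have hEA : ∀ (n : ℕ) (G : ℝ → ℝ), 2 ≤ n → EA n G * ((KP (2 * n - 1)).card : ℝ) =
      ∑ w ∈ KP (2 * n - 1), G (ar w) := by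
    intro n G hn
    unfold EA
    rw [(hcnv n hn).2.2.2, (hcnv n hn).2.2.1 (fun k => G (k : ℝ)), div_mul_cancel₀ _ (hM n hn).ne']
  refine ⟨δ₀ / 2, C₀, by positivity, hC, fun n hn => ?_, ?_, ?_⟩
  · have hn0 : (0 : ℝ) < n := by
      have : 0 < n := by omega
      exact_mod_cast this
    unfold pl
    rw [hLC n _ hn, hLU n hn, ← mul_div_assoc]
    refine div_le_div_of_nonneg_right ?_ (by positivity)
    refine le_trans ?_ (hcard n hn)
    have hsub : (KP (2 * n - 1)).filter (fun w => (ar w : ℤ) ∈ {a : ℤ | (a : ℝ) ≤ (1 + δ₀ / 2) * n}) ⊆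
        (KP (2 * n - 1)).filter (fun w => (ar w : ℝ) ≤ (1 + δ₀) * n) := by
      intro w hw
      rw [mem_filter] at hw ⊢
      refine ⟨hw.1, ?_⟩
      have h1 := hw.2
      rw [Set.mem_ofPred_eq] at h1
      push_cast at h1
      nlinarith
    exact_mod_cast Finset.card_le_card hsub
  · -- the mean
    have hlim : Filter.Tendsto (fun n : ℕ => (1 + δ₀) * (C₀ * Real.exp (-(δ₀ / 2) * n))) Filter.atTop
        (nhds ((1 + δ₀) * (C₀ * 0))) := by
      refine Filter.Tendsto.const_mul _ (Filter.Tendsto.const_mul _ ?_)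
      refine Real.tendsto_exp_atBot.comp ?_
      refine Filter.Tendsto.const_mul_atTop_of_neg (by linarith) tendsto_natCast_atTop_atTop
    have hpos : (1 + δ₀) * (C₀ * 0) < δ₀ / 2 := by
      rw [mul_zero, mul_zero]
      linarith
    filter_upwards [hlim.eventually_lt_const hpos, Filter.eventually_ge_atTop 2] with n h1 hn
    have hn0 : (0 : ℝ) < n := by
      have : 0 < n := by omega
      exact_mod_cast this
    have hM' := hM n hn
    rw [← mul_le_mul_iff_left₀ hM', hEA n _ hn]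
    have h2 := hcard n hn
    have h3 : (((KP (2 * n - 1)).filter (fun w => (ar w : ℝ) ≤ (1 + δ₀) * n)).card : ℝ) +
        (((KP (2 * n - 1)).filter (fun w => ¬ (ar w : ℝ) ≤ (1 + δ₀) * n)).card : ℝ) =
          ((KP (2 * n - 1)).card : ℝ) := by
      exact_mod_cast Finset.card_filter_add_card_filter_not (s := KP (2 * n - 1))
        (fun w => (ar w : ℝ) ≤ (1 + δ₀) * n)
    have h4 : (((KP (2 * n - 1)).filter (fun w => ¬ (ar w : ℝ) ≤ (1 + δ₀) * n)).card : ℝ) * ((1 + δ₀) * n) ≤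
        ∑ w ∈ KP (2 * n - 1), (ar w : ℝ) := by
      calc (((KP (2 * n - 1)).filter (fun w => ¬ (ar w : ℝ) ≤ (1 + δ₀) * n)).card : ℝ) * ((1 + δ₀) * n)
          = ∑ w ∈ (KP (2 * n - 1)).filter (fun w => ¬ (ar w : ℝ) ≤ (1 + δ₀) * n), (1 + δ₀) * (n : ℝ) := by
            rw [Finset.sum_const, nsmul_eq_mul]
        _ ≤ ∑ w ∈ (KP (2 * n - 1)).filter (fun w => ¬ (ar w : ℝ) ≤ (1 + δ₀) * n), (ar w : ℝ) := by
            refine Finset.sum_le_sum fun w hw => ?_
            rw [mem_filter] at hw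
            exact (not_le.1 hw.2).le
        _ ≤ ∑ w ∈ KP (2 * n - 1), (ar w : ℝ) :=
            Finset.sum_le_sum_of_subset_of_nonneg (Finset.filter_subset _ _) fun w _ _ => Nat.cast_nonneg _
    refine le_trans ?_ h4
    have h5 : (1 + δ₀ / 2) * (n : ℝ) * ((KP (2 * n - 1)).card : ℝ) ≤
        ((KP (2 * n - 1)).card - C₀ * Real.exp (-(δ₀ / 2) * n) * (KP (2 * n - 1)).card) * ((1 + δ₀) * n) := by
      have h6 : 0 < (n : ℝ) * ((KP (2 * n - 1)).card : ℝ) := by positivity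
      nlinarith
    refine h5.trans (mul_le_mul_of_nonneg_right ?_ (by positivity))
    linarith
  · -- the variance
    have hlim : Filter.Tendsto (fun n : ℕ => (n : ℝ)) Filter.atTop Filter.atTop := tendsto_natCast_atTop_atTop
    filter_upwards [hlim.eventually_ge_atTop ((δ₀ + C₀) / δ₀), Filter.eventually_ge_atTop 2] with n h1 hn y
    have hM' := hM n hn
    rw [← mul_le_mul_iff_left₀ hM', hEA n _ hn]
    have h2 := (hm (2 * n - 1) (by omega) (by omega)).2 y
    refine le_trans ?_ h2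
    refine mul_le_mul_of_nonneg_right ?_ hM'.le
    rw [hn2 n hn]
    rw [div_le_iff₀ hδ] at h1
    nlinarith

end Pool.Agent.Q153.PT.FN4
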